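import Pool.Agent.L7h19.FT.Stm
import Pool.Agent.L7h56.IK.Exp5

/-!
# Project FT: the expansion `S_EXT`
-/

set_option autoImplicit false
set_option linter.all false

namespace Pool.Agent.L7h56.FT

open Finset Pool.Agent.W262.RK Pool.Agent.W108.RK Pool.Agent.W762.RK2 Pool.Agent.L7h19.FT
  Pool.Agent.L7h19.IT Pool.Agent.L7h65.IS Pool.Agent.L7h65.IT
open Pool.Agent.L7h56.IK (Ve Mk z2 chi sum_dvr Jr_sq')
open Pool.Agent.L7h19.RP.AT (gm)
open Pool.Agent.L7h19.RH (Q0)

variable {J : Type} [Fintype J] [DecidableEq J] {z y k : ℕ}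

lemma mc_Dl (cls : J → Fin 3) (ξ : Pr z y → Option J) (c : Fin 3) :
    mc cls (Dl ξ) c = nb fun p => tm (fun j => decide (cls j = c)) (ξ p) := by
  rw [← pP_Dl (fun j => decide (cls j = c)) ξ]
  unfold mc pP
  refine Finset.prod_congr (Finset.filter_congr fun j _ => by simp) fun _ _ => rfl

lemma Mt_mc (cls : J → Fin 3) (s : J → ℕ) : Mt (mc cls s) = ∏ j, s j := by
  unfold Mt mc
  exact Finset.prod_fiberwise univ cls s

lemma prod_Dl (ξ : Pr z y → Option J) : ∏ j, Dl ξ j = nb fun p => (ξ p).isSome := by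
  have h := pP_Dl (fun _ : J => true) ξ
  unfold pP at h
  rw [Finset.filter_true_of_mem (fun _ _ => rfl)] at h
  rw [h]
  congr 1
  funext p
  cases ξ p <;> rfl

/-- the same class -/
def sc (cls : J → Fin 3) (o o' : Option J) : Bool :=
  o.elim false fun j => o'.elim false fun l => decide (cls j = cls l)

lemma sy3_eq (cls : J → Fin 3) (ξ : Pr z y → Option J) (η : Pr z y → Bool) (p q : Pr z y) :
    (sy3 (mc cls (Dl ξ)) (Ts η) p q : ℝ) = if q = p then (if η p = true then -1 else 1) else
      if sc cls (ξ p) (ξ q) = true then 1 else Jr ((q : ℕ) : ℤ) p := by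
  unfold sy3
  by_cases h : q = p
  · subst h
    rw [if_pos rfl, if_pos rfl]
    by_cases hη : η q = true
    · rw [if_pos ((mem_Ts η q).2 hη), if_pos hη]
      norm_num
    · rw [if_neg (fun h => hη ((mem_Ts η q).1 h)), if_neg hη]
      norm_num
  · have h' : ¬ (q : ℕ) = p := fun h2 => h (Subtype.ext h2)
    rw [if_neg h', if_neg h]
    have h2 : (∃ c, (p : ℕ) ∣ mc cls (Dl ξ) c ∧ (q : ℕ) ∣ mc cls (Dl ξ) c) ↔
        sc cls (ξ p) (ξ q) = true := by
      simp only [mc_Dl, dvd_nb]
      cases hp : ξ p with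
      | none => simp [tm, sc]
      | some j =>
        cases hq : ξ q with
        | none => simp [tm, sc]
        | some l =>
          simp only [tm, sc, Option.elim, decide_eq_true_eq]
          constructor
          · rintro ⟨c, h1, h2⟩
            rw [h1, h2]
          · intro h
            exact ⟨cls j, rfl, h.symm⟩
    by_cases h3 : sc cls (ξ p) (ξ q) = true
    · rw [if_pos (h2.2 h3), if_pos h3]
      norm_num
    · rw [if_neg (fun h => h3 (h2.1 h)), if_neg h3]
      rfl

lemma sy3_sq (cls : J → Fin 3) (ξ : Pr z y → Option J) (η : Pr z y → Bool) (p q : Pr z y) :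
    (sy3 (mc cls (Dl ξ)) (Ts η) p q : ℝ) * sy3 (mc cls (Dl ξ)) (Ts η) p q = 1 := by
  rw [sy3_eq]
  by_cases h : q = p
  · rw [if_pos h]
    split_ifs <;> norm_num
  · rw [if_neg h]
    split_ifs
    · norm_num
    · exact Jr_sq h

lemma prod_gen (S : ℕ → ℕ → ℝ) (hS : ∀ p q : Pr z y, S p q * S p q = 1) (v x : Pr z y → Ve k) :
    ∏ i, ∏ p ∈ (nb fun p => decide (x p i ≠ 0)).primeFactors,
      ∏ q ∈ (nb fun p => decide (v p i ≠ 0)).primeFactors, S p q =
      ∏ p : Pr z y, ∏ q : Pr z y, if v q ⬝ᵥ x p ≠ 0 then S p q else 1 := by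
  have h1 : ∀ i, ∏ p ∈ (nb fun p => decide (x p i ≠ 0)).primeFactors,
      ∏ q ∈ (nb fun p => decide (v p i ≠ 0)).primeFactors, S p q =
      ∏ p : Pr z y, ∏ q : Pr z y, (if x p i ≠ 0 then (if v q i ≠ 0 then S p q else 1) else 1) := by
    intro i
    rw [prod_pf (fun p : Pr z y => decide (x p i ≠ 0)) fun p =>
      ∏ q ∈ (nb fun p => decide (v p i ≠ 0)).primeFactors, S p q]
    refine Finset.prod_congr rfl fun p _ => ?_
    rw [prod_pf (fun p : Pr z y => decide (v p i ≠ 0)) fun q => S p q]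
    by_cases h : x p i = 0
    · simp [h]
    · simp only [h, ne_eq, not_false_eq_true, decide_true, if_true, decide_eq_true_eq]
  rw [Finset.prod_congr rfl fun i _ => h1 i, Finset.prod_comm]
  refine Finset.prod_congr rfl fun p _ => ?_
  rw [Finset.prod_comm]
  refine Finset.prod_congr rfl fun q _ => ?_
  exact chi _ (hS p q) (v q) (x p)

/-- the product of the symbols outside the diagonal -/
noncomputable def OT (cls : J → Fin 3) (ζ : Pr z y → Option J × Mk k) : ℝ :=
  ∏ p : Pr z y, ∏ q : Pr z y, if (decide (q ≠ p) && (!sc cls (ζ p).1 (ζ q).1 &&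
    decide ((ζ q).2.1 ⬝ᵥ (ζ p).2.2 ≠ 0))) = true then Jr ((q : ℕ) : ℤ) p else 1

lemma prod_all (cls : J → Fin 3) (ξ : Pr z y → Option J) (η : Pr z y → Bool)
    (v x : Pr z y → Ve k) :
    ∏ i, ∏ p ∈ (nb fun p => decide (x p i ≠ 0)).primeFactors,
      ∏ q ∈ (nb fun p => decide (v p i ≠ 0)).primeFactors,
        (sy3 (mc cls (Dl ξ)) (Ts η) p q : ℝ) =
      (∏ p : Pr z y, if v p ⬝ᵥ x p ≠ 0 then (if η p = true then (-1 : ℝ) else 1) else 1) *
        OT cls fun p => (ξ p, (v p, x p)) := by
  rw [prod_gen (fun p q => (sy3 (mc cls (Dl ξ)) (Ts η) p q : ℝ)) (sy3_sq cls ξ η) v x]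
  have hd : ∀ F : Pr z y → ℝ, ∏ p : Pr z y, F p =
      ∏ p : Pr z y, ∏ q : Pr z y, if q = p then F p else 1 := by
    intro F
    refine Finset.prod_congr rfl fun p _ => ?_
    rw [Finset.prod_ite_eq' univ p fun _ => F p]
    simp
  unfold OT
  rw [hd (fun p => if v p ⬝ᵥ x p ≠ 0 then (if η p = true then (-1 : ℝ) else 1) else 1),
    ← Finset.prod_mul_distrib]
  refine Finset.prod_congr rfl fun p _ => ?_
  rw [← Finset.prod_mul_distrib]
  refine Finset.prod_congr rfl fun q _ => ?_
  beta_reduce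
  rw [sy3_eq]
  by_cases hq : q = p
  · subst hq
    simp
  · by_cases hv : v q ⬝ᵥ x p = 0
    · simp [hq, hv]
    · by_cases hs : sc cls (ξ p) (ξ q) = true
      · simp [hq, hv, hs]
      · simp [hq, hv, hs]

/-- the condition on the marks -/
def CT (cls : J → Fin 3) (ζ : Pr z y → Option J × Mk k) : Prop := ∀ w : Ve k, w ≠ 0 →
  ∃ P Q : Pr z y, ((ζ P).1.isSome = true ∧ (ζ Q).1.isSome = true ∧
    sc cls (ζ P).1 (ζ Q).1 = false) ∧ w ⬝ᵥ (ζ P).2.1 ≠ 0 ∧ w ⬝ᵥ (ζ Q).2.1 ≠ 0

instance (cls : J → Fin 3) (ζ : Pr z y → Option J × Mk k) : Decidable (CT cls ζ) := by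
  unfold CT
  infer_instance

lemma key_dot (v : Pr z y → Ve k) (w : Ve k) (p : Pr z y) :
    ∑ i, w i * (if (p : ℕ) ∣ nb (fun p : Pr z y => decide (v p i ≠ 0)) then 1 else 0) =
      w ⬝ᵥ v p := by
  unfold dotProduct
  refine Finset.sum_congr rfl fun i _ => ?_
  congr 1
  by_cases h : v p i = 0
  · rw [if_neg, h]
    rw [dvd_nb]
    simp [h]
  · rw [if_pos, z2 _ h]
    rw [dvd_nb]
    simp [h]

lemma mem_mc (cls : J → Fin 3) (ξ : Pr z y → Option J) (c : Fin 3) (p : ℕ) :
    p ∈ (mc cls (Dl ξ) c).primeFactors ↔ ∃ P : Pr z y, (P : ℕ) = p ∧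
      ∃ j, ξ P = some j ∧ cls j = c := by
  rw [mc_Dl, nb_pf]
  unfold Ts
  rw [Finset.mem_map]
  constructor
  · rintro ⟨P, hP, hPp⟩
    refine ⟨P, hPp, ?_⟩
    have h1 : tm (fun j => decide (cls j = c)) (ξ P) = true := (mem_filter.1 hP).2
    cases hx : ξ P with
    | none => rw [hx] at h1; exact absurd h1 (by simp [tm])
    | some j =>
      rw [hx] at h1
      exact ⟨j, rfl, of_decide_eq_true h1⟩
  · rintro ⟨P, hPp, j, hj, hc⟩
    refine ⟨P, ?_, hPp⟩
    rw [mem_filter]
    refine ⟨mem_univ _, ?_⟩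
    show tm (fun j => decide (cls j = c)) (ξ P) = true
    rw [hj]
    exact decide_eq_true hc

lemma Cd_iff (cls : J → Fin 3) (ξ : Pr z y → Option J) (v x : Pr z y → Ve k) :
    Cd k (mc cls (Dl ξ)) (fun i => nb fun p => decide (v p i ≠ 0)) ↔
      CT cls fun p => (ξ p, (v p, x p)) := by
  unfold Cd CT
  refine forall_congr' fun w => imp_congr Iff.rfl ?_
  constructor
  · rintro ⟨c, c', hcc, ⟨p, hp, h1⟩, q, hq, h2⟩
    obtain ⟨P, rfl, j, hj, hc⟩ := (mem_mc cls ξ c p).1 hp
    obtain ⟨Q, rfl, l, hl, hc'⟩ := (mem_mc cls ξ c' q).1 hq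
    rw [key_dot v w P] at h1
    rw [key_dot v w Q] at h2
    refine ⟨P, Q, ⟨by simp [hj], by simp [hl], ?_⟩, h1, h2⟩
    simp only [hj, hl, sc, Option.elim]
    apply decide_eq_false
    rw [hc, hc']
    exact hcc
  · rintro ⟨P, Q, ⟨hP, hQ, hsc⟩, h1, h2⟩
    obtain ⟨j, hj⟩ := Option.isSome_iff_exists.1 hP
    obtain ⟨l, hl⟩ := Option.isSome_iff_exists.1 hQ
    simp only at hj hl hsc h1 h2
    rw [hj, hl] at hsc
    have hne : cls j ≠ cls l := of_decide_eq_false hsc
    refine ⟨cls j, cls l, hne, ⟨P, (mem_mc cls ξ _ _).2 ⟨P, rfl, j, hj, rfl⟩, ?_⟩,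
      Q, (mem_mc cls ξ _ _).2 ⟨Q, rfl, l, hl, rfl⟩, ?_⟩
    · rw [key_dot v w P]
      exact h1
    · rw [key_dot v w Q]
      exact h2

/-- the support of the marks -/
def SU (ξ : Pr z y → Option J) (μ : Pr z y → Mk k) : Prop :=
  (∀ p, (μ p).1 ≠ 0 → (ξ p).isSome = true) ∧ ∀ p, (μ p).2 ≠ 0 → (ξ p).isSome = true

instance (ξ : Pr z y → Option J) (μ : Pr z y → Mk k) : Decidable (SU ξ μ) := by
  unfold SU
  infer_instance

/-- the signs -/
noncomputable def SG (η : Pr z y → Bool) (μ : Pr z y → Mk k) : ℝ :=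
  ∏ p : Pr z y, if (μ p).1 ⬝ᵥ (μ p).2 ≠ 0 then (if η p = true then (-1 : ℝ) else 1) else 1

lemma TK_eq (cls : J → Fin 3) (ξ : Pr z y → Option J) (η : Pr z y → Bool) :
    TK k (mc cls (Dl ξ)) (Ts η) =
      (∏ p : Pr z y, if (ξ p).isSome = true then (1 / 2 ^ k : ℝ) else 1) *
        ∑ μ : Pr z y → Mk k, if SU ξ μ ∧ CT cls (fun p => (ξ p, μ p)) then
          SG η μ * OT cls (fun p => (ξ p, μ p)) else 0 := by
  have hM : Mt (mc cls (Dl ξ)) = nb fun p => (ξ p).isSome := by
    rw [Mt_mc, prod_Dl]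
  have h1 : ((2:ℝ) ^ (k * (nb fun p : Pr z y => (ξ p).isSome).primeFactors.card))⁻¹ =
      ∏ p : Pr z y, if (ξ p).isSome = true then (1 / 2 ^ k : ℝ) else 1 := by
    rw [← prod_pf (fun p : Pr z y => (ξ p).isSome) fun _ => (1 / 2 ^ k : ℝ), Finset.prod_const,
      pow_mul, ← inv_pow]
    norm_num
  unfold TK
  rw [hM, div_eq_mul_inv, h1, mul_comm]
  congr 1
  rw [Finset.sum_filter, sum_dvr fun p => (ξ p).isSome]
  have h2 : ∀ v : Pr z y → Ve k, (if ∀ p, v p ≠ 0 → (ξ p).isSome = true then
      (if Cd k (mc cls (Dl ξ)) (fun i => nb fun p => decide (v p i ≠ 0)) then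
        ∑ e ∈ Fintype.piFinset (fun _ : Fin k => (nb fun p => (ξ p).isSome).divisors),
          ∏ i, ∏ p ∈ (e i).primeFactors,
            ∏ q ∈ (nb fun p => decide (v p i ≠ 0)).primeFactors,
              (sy3 (mc cls (Dl ξ)) (Ts η) p q : ℝ) else 0) else 0) =
      ∑ x : Pr z y → Ve k, if SU ξ (fun p => (v p, x p)) ∧ CT cls (fun p => (ξ p, (v p, x p))) then
        SG η (fun p => (v p, x p)) * OT cls (fun p => (ξ p, (v p, x p))) else 0 := by
    intro v
    by_cases hv : ∀ p, v p ≠ 0 → (ξ p).isSome = true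
    · rw [if_pos hv]
      by_cases hC : CT cls (fun p => (ξ p, (v p, v p)))
      · rw [if_pos ((Cd_iff cls ξ v v).2 hC), sum_dvr fun p => (ξ p).isSome]
        refine Finset.sum_congr rfl fun x _ => ?_
        have hC' : CT cls (fun p => (ξ p, (v p, x p))) :=
          (Cd_iff cls ξ v x).1 ((Cd_iff cls ξ v v).2 hC)
        by_cases hx : ∀ p, x p ≠ 0 → (ξ p).isSome = true
        · rw [if_pos hx, if_pos ⟨⟨hv, hx⟩, hC'⟩]
          exact prod_all cls ξ η v x
        · rw [if_neg hx, if_neg fun h => hx h.1.2]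
      · rw [if_neg fun h => hC ((Cd_iff cls ξ v v).1 h)]
        symm
        exact Finset.sum_eq_zero fun x _ => if_neg fun h =>
          hC ((Cd_iff cls ξ v v).1 ((Cd_iff cls ξ v x).2 h.2))
    · rw [if_neg hv]
      symm
      exact Finset.sum_eq_zero fun x _ => if_neg fun h => hv h.1.1
  rw [Finset.sum_congr rfl fun v _ => h2 v,
    sum_arr (fun v x : Pr z y → Ve k => if SU ξ (fun p => (v p, x p)) ∧
      CT cls (fun p => (ξ p, (v p, x p))) then
        SG η (fun p => (v p, x p)) * OT cls (fun p => (ξ p, (v p, x p))) else 0)]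

lemma sum_eta (a : Pr z y → Bool) (g : Bool → Pr z y → ℝ) :
    ∑ η : Pr z y → Bool, (if ∀ p, η p = true → a p = true then ∏ p, g (η p) p else 0) =
      ∏ p, if a p = true then g true p + g false p else g false p := by
  have h1 : ∀ η : Pr z y → Bool, (if ∀ p, η p = true → a p = true then ∏ p, g (η p) p else 0) =
      ∏ p, if η p = true → a p = true then g (η p) p else 0 := by
    intro η
    by_cases h : ∀ p, η p = true → a p = true
    · rw [if_pos h]
      exact Finset.prod_congr rfl fun p _ => (if_pos (h p)).symm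
    · rw [if_neg h]
      simp only [not_forall] at h
      obtain ⟨p, hp⟩ := h
      symm
      refine Finset.prod_eq_zero (mem_univ p) (if_neg ?_)
      intro h'
      obtain ⟨h3, h4⟩ := hp
      exact h4 (h' h3)
  rw [Finset.sum_congr rfl fun η _ => h1 η]
  have h2 : ∀ p, (if a p = true then g true p + g false p else g false p) =
      ∑ b : Bool, if b = true → a p = true then g b p else 0 := by
    intro p
    rw [Fintype.sum_bool]
    by_cases h : a p = true
    · simp [h]
    · simp [h]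
  rw [Finset.prod_congr rfl fun p _ => h2 p, Finset.prod_univ_sum]
  rw [Fintype.piFinset_univ]

/-- the local weights with the marks -/
noncomputable def TAe (A B : J → ℕ → ℝ) (p : ℕ) (o : Option J) (m : Mk k) : ℝ :=
  o.elim (if m = (0, 0) then 1 else 0) fun j => bT A B k (j, m) p

/-- the symbols -/
noncomputable def GT (cls : J → Fin 3) (ζ : Pr z y → Option J × Mk k) : ℝ :=
  if CT cls ζ then OT cls ζ else 0

lemma TAe_prod (A B : J → ℕ → ℝ) (ξ : Pr z y → Option J) (μ : Pr z y → Mk k) :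
    ∏ p : Pr z y, TAe A B p (ξ p) (μ p) = if SU ξ μ then
      ∏ p : Pr z y, (ξ p).elim 1 (fun j => bT A B k (j, μ p) p) else 0 := by
  by_cases h : SU ξ μ
  · rw [if_pos h]
    refine Finset.prod_congr rfl fun p _ => ?_
    cases hx : ξ p with
    | none =>
      have h1 : (μ p).1 = 0 := by
        by_contra hne
        have := h.1 p hne
        rw [hx] at this
        exact absurd this (by simp)
      have h2 : (μ p).2 = 0 := by
        by_contra hne
        have := h.2 p hne
        rw [hx] at this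
        exact absurd this (by simp)
      simp only [TAe, Option.elim]
      exact if_pos (Prod.ext h1 h2)
    | some j => rfl
  · rw [if_neg h]
    have h' : ∃ p, ¬ ((μ p).1 = 0 ∧ (μ p).2 = 0) ∧ ¬ (ξ p).isSome = true := by
      by_contra hno
      apply h
      simp only [not_exists, not_and, not_not] at hno
      refine ⟨fun p hp => hno p fun h1 => absurd h1 hp, fun p hp => hno p fun _ h2 => absurd h2 hp⟩
    obtain ⟨p, hp1, hp2⟩ := h'
    refine Finset.prod_eq_zero (mem_univ p) ?_
    cases hx : ξ p with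
    | none =>
      simp only [TAe, Option.elim]
      refine if_neg fun h1 => hp1 ?_
      rw [h1]
      exact ⟨rfl, rfl⟩
    | some j => rw [hx] at hp2; exact absurd rfl hp2

lemma lhs_term (cls : J → Fin 3) (A B : J → ℕ → ℝ) (ξ : Pr z y → Option J) :
    avE A B (fun E => TK k (mc cls (Dl ξ)) E) (Dl ξ) =
      ∑ μ : Pr z y → Mk k, (∏ p : Pr z y, TAe A B p (ξ p) (μ p)) * GT cls fun p => (ξ p, μ p) := by
  unfold avE
  have hQ : Q0 (Dl ξ) = (nb fun p : Pr z y => (ξ p).isSome).primeFactors := by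
    unfold Q0
    rw [prod_Dl]
  rw [hQ, sum_pw]
  have hW : ∀ η : Pr z y → Bool, WE A B (Dl ξ) (Ts η) =
      ∏ p : Pr z y, (ξ p).elim 1 fun j => if η p = true then B j p else A j p := by
    intro η
    have h1 : WE A B (Dl ξ) (Ts η) = ∏ j, gm (fun p => if p ∈ Ts η then B j p else A j p) (Dl ξ j) :=
      rfl
    rw [h1, Pool.Agent.L7h19.RP.prod_gm (fun j p => if p ∈ Ts η then B j p else A j p) ξ]
    refine Finset.prod_congr rfl fun p _ => ?_
    cases ξ p with
    | none => rfl
    | some j =>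
      simp only [Option.elim]
      exact if_congr (mem_Ts η p) rfl rfl
  set g : (Pr z y → Mk k) → Bool → Pr z y → ℝ := fun μ b p =>
    ((ξ p).elim 1 fun j => if b = true then B j p else A j p) *
      (if (ξ p).isSome = true then (1 / 2 ^ k : ℝ) else 1) *
      (if (μ p).1 ⬝ᵥ (μ p).2 ≠ 0 then (if b = true then (-1 : ℝ) else 1) else 1) with hg
  have h1 : ∀ η : Pr z y → Bool, (if ∀ p, η p = true → (ξ p).isSome = true then
      TK k (mc cls (Dl ξ)) (Ts η) * WE A B (Dl ξ) (Ts η) else 0) =
      ∑ μ : Pr z y → Mk k, (if SU ξ μ then GT cls (fun p => (ξ p, μ p)) else 0) *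
        (if ∀ p, η p = true → (ξ p).isSome = true then ∏ p, g μ (η p) p else 0) := by
    intro η
    by_cases h : ∀ p, η p = true → (ξ p).isSome = true
    · rw [if_pos h, TK_eq, hW, Finset.mul_sum, Finset.sum_mul]
      refine Finset.sum_congr rfl fun μ _ => ?_
      rw [if_pos h]
      have h2 : ∏ p, g μ (η p) p =
          (∏ p : Pr z y, (ξ p).elim 1 fun j => if η p = true then B j p else A j p) *
          (∏ p : Pr z y, if (ξ p).isSome = true then (1 / 2 ^ k : ℝ) else 1) * SG η μ := by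
        unfold SG
        rw [← Finset.prod_mul_distrib, ← Finset.prod_mul_distrib]
      rw [h2]
      unfold GT
      by_cases h3 : SU ξ μ
      · by_cases h4 : CT cls (fun p => (ξ p, μ p))
        · rw [if_pos ⟨h3, h4⟩, if_pos h3, if_pos h4]
          ring
        · rw [if_neg fun h => h4 h.2, if_pos h3, if_neg h4]
          ring
      · rw [if_neg fun h => h3 h.1, if_neg h3]
        ring
    · rw [if_neg h]
      symm
      exact Finset.sum_eq_zero fun μ _ => by rw [if_neg h, mul_zero]
  rw [Finset.sum_congr rfl fun η _ => h1 η, Finset.sum_comm]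
  refine Finset.sum_congr rfl fun μ _ => ?_
  rw [← Finset.mul_sum, sum_eta (fun p => (ξ p).isSome) (g μ), TAe_prod]
  by_cases h3 : SU ξ μ
  · rw [if_pos h3, if_pos h3, mul_comm]
    congr 1
    refine Finset.prod_congr rfl fun p _ => ?_
    simp only [hg]
    cases hx : ξ p with
    | none =>
      have h4 : (μ p).1 = 0 := by
        by_contra hne
        have := h3.1 p hne
        rw [hx] at this
        exact absurd this (by simp)
      simp [h4]
    | some j =>
      simp only [Option.elim, Option.isSome_some, if_true, Bool.false_eq_true, if_false]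
      unfold bT
      by_cases h5 : (μ p).1 ⬝ᵥ (μ p).2 = 0
      · simp only [h5, ne_eq, not_true_eq_false, if_false, if_true]
        ring
      · simp only [h5, ne_eq, not_false_eq_true, if_false, if_true]
        ring
  · rw [if_neg h3, if_neg h3]
    ring

/-! ### The right side -/

/-- the label and the marks -/
def fk (x : Option (LabT J k)) : Option J × Mk k :=
  (x.map fun i => i.1, x.elim (0, 0) fun i => i.2)

/-- the local weights -/
noncomputable def WAe (A B : J → ℕ → ℝ) (p : ℕ) (x : Option (LabT J k)) : ℝ :=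
  x.elim 1 fun i => bT A B k i p

lemma fiber (A B : J → ℕ → ℝ) (p : ℕ) (x : Option J × Mk k) :
    ∑ u ∈ univ.filter (fun u : Option (LabT J k) => fk u = x), WAe A B p u =
      TAe A B p x.1 x.2 := by
  obtain ⟨x, ε⟩ := x
  rw [Finset.sum_filter, Fintype.sum_option]
  cases x with
  | none =>
    have h1 : ∑ i : LabT J k, (if fk (some i) = ((none : Option J), ε) then
        WAe A B p (some i) else 0) = 0 := by
      refine Finset.sum_eq_zero fun i _ => if_neg ?_
      simp [fk]
    rw [h1, add_zero]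
    simp only [fk, Option.map_none, Option.elim, Prod.mk.injEq, true_and, WAe, TAe]
    refine if_congr ?_ rfl rfl
    exact ⟨fun h => h.symm, fun h => h.symm⟩
  | some j =>
    have h0 : (if fk (none : Option (LabT J k)) = (some j, ε) then
        WAe A B p (none : Option (LabT J k)) else 0) = 0 := by
      rw [if_neg]
      simp [fk]
    rw [h0, zero_add, Finset.sum_eq_single ((j, ε) : LabT J k)]
    · simp only [TAe, Option.elim, WAe]
      exact if_pos rfl
    · rintro ⟨j', m⟩ _ hne
      refine if_neg fun h' => hne ?_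
      simp only [fk, Option.map_some, Option.elim, Prod.mk.injEq, Option.some.injEq] at h'
      rw [h'.1, h'.2]
    · intro h
      exact absurd (mem_univ _) h

lemma Sym_eq (cls : J → Fin 3) (l : Pr z y → Option (LabT J k)) :
    Pool.Agent.W262.RK.Sym (LT cls k) (fun _ => 1) (Dl l) = OT cls fun p => fk (l p) := by
  rw [Sym_Dl]
  have h1 : ∏ p : Pr z y, ((l p).elim 1 fun _ => Jr 1 p) = (1 : ℝ) := by
    refine Finset.prod_eq_one fun p _ => ?_
    cases l p with
    | none => rfl
    | some i => exact Jr_one_left _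
  rw [h1, mul_one]
  unfold OT
  refine Finset.prod_congr rfl fun p _ => ?_
  refine Finset.prod_congr rfl fun q _ => ?_
  beta_reduce
  cases hq : l q with
  | none =>
    have e : Pool.Agent.W762.RK2.lk (LT cls k) (none : Option (LabT J k)) (l p) = false := rfl
    rw [e]
    simp [fk]
  | some i =>
    cases hp : l p with
    | none =>
      have e : Pool.Agent.W762.RK2.lk (LT cls k) (some i) (none : Option (LabT J k)) = false := rfl
      rw [e]
      simp [fk]
    | some m =>
      have e : Pool.Agent.W762.RK2.lk (LT cls k) (some i) (some m) = LT cls k i m := rfl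
      rw [e]
      simp only [fk, Option.elim, Option.map_some, Pool.Agent.L7h19.FT.LT, sc]
      by_cases hqp : q = p
      · have hik : i = m := by
          rw [hqp, hp] at hq
          exact (Option.some.inj hq).symm
        simp [hqp, hik]
      · by_cases h5 : i.2.1 ⬝ᵥ m.2.2 = 0
        · simp [h5]
        · by_cases h6 : cls m.1 = cls i.1
          · simp [h6]
          · have h7 : ¬ cls i.1 = cls m.1 := fun h => h6 h.symm
            simp [hqp, h5, h6, h7]

lemma rhs_term (cls : J → Fin 3) (A B : J → ℕ → ℝ) (l : Pr z y → Option (LabT J k)) :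
    (if QT cls k (univ.filter (fun i => Dl l i ≠ 1)) then
      (∏ i : LabT J k, gm (bT A B k i) (Dl l i)) *
        Pool.Agent.W262.RK.Sym (LT cls k) (fun _ => 1) (Dl l) else 0) =
      (∏ p : Pr z y, WAe A B p (l p)) * GT cls fun p => fk (l p) := by
  have hm : ∀ i : LabT J k, i ∈ univ.filter (fun i => Dl l i ≠ 1) ↔ ∃ p, l p = some i := by
    intro i
    have hn : Dl l i ≠ 1 ↔ ∃ p, l p = some i := by
      unfold Dl
      rw [nb_ne_one]
      simp only [decide_eq_true_eq]
    rw [mem_filter, ← hn]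
    exact ⟨fun h => h.2, fun h => ⟨mem_univ _, h⟩⟩
  have hc : QT cls k (univ.filter (fun i => Dl l i ≠ 1)) ↔ CT cls fun p => fk (l p) := by
    unfold QT CT
    refine forall_congr' fun w => imp_congr Iff.rfl ?_
    constructor
    · rintro ⟨i, h1, m, h2, h3, h4, h5⟩
      obtain ⟨P, hP⟩ := (hm i).1 h1
      obtain ⟨Q, hQ⟩ := (hm m).1 h2
      refine ⟨P, Q, ⟨by simp [fk, hP], by simp [fk, hQ], ?_⟩, ?_, ?_⟩
      · simp only [fk, hP, hQ, Option.map_some, sc, Option.elim]
        exact decide_eq_false h3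
      · simp only [fk, hP, Option.elim]
        exact h4
      · simp only [fk, hQ, Option.elim]
        exact h5
    · rintro ⟨P, Q, ⟨hP, hQ, hsc⟩, h4, h5⟩
      cases hx : l P with
      | none => simp [fk, hx] at hP
      | some i =>
        cases hy : l Q with
        | none => simp [fk, hy] at hQ
        | some m =>
          simp only [fk, hx, hy, Option.map_some, sc, Option.elim] at hsc h4 h5
          exact ⟨i, (hm i).2 ⟨P, hx⟩, m, (hm m).2 ⟨Q, hy⟩, of_decide_eq_false hsc, h4, h5⟩
  rw [Pool.Agent.L7h19.RP.prod_gm (fun i : LabT J k => bT A B k i) l, Sym_eq]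
  unfold GT
  by_cases h : CT cls fun p => fk (l p)
  · rw [if_pos (hc.2 h), if_pos h]
    rfl
  · rw [if_neg (fun h' => h (hc.1 h')), if_neg h, mul_zero]

/-- **S_EXT** -/
theorem s_EXT : S_EXT := by
  classical
  intro J _ _ cls A B k z y _
  rw [sum_Tup fun s => avE A B (fun E => TK k (mc cls s) E) s,
    Finset.sum_filter,
    sum_Tup fun d : LabT J k → ℕ =>
      if QT cls k (univ.filter (fun i => d i ≠ 1)) then
        (∏ i : LabT J k, gm (bT A B k i) (d i)) *
          Pool.Agent.W262.RK.Sym (LT cls k) (fun _ => 1) d else 0]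
  rw [Finset.sum_congr rfl fun ξ _ => lhs_term cls A B ξ,
    Finset.sum_congr rfl fun l _ => rhs_term cls A B l]
  rw [← Finset.sum_fiberwise univ (fun (l : Pr z y → Option (LabT J k)) => fun p => fk (l p))]
  have h1 : ∀ ζ : Pr z y → Option J × Mk k,
      ∑ l ∈ univ.filter (fun l : Pr z y → Option (LabT J k) => (fun p => fk (l p)) = ζ),
        (∏ p : Pr z y, WAe A B p (l p)) * (GT cls fun p => fk (l p)) =
      (∏ p : Pr z y, TAe A B p (ζ p).1 (ζ p).2) * GT cls ζ := by
    intro ζ
    have h2 : (univ.filter fun l : Pr z y → Option (LabT J k) => (fun p => fk (l p)) = ζ) =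
        Fintype.piFinset (fun p => univ.filter (fun x : Option (LabT J k) => fk x = ζ p)) := by
      ext l
      simp only [Finset.mem_filter, Finset.mem_univ, true_and, Fintype.mem_piFinset, funext_iff]
    rw [Finset.prod_congr rfl fun (p : Pr z y) _ => (fiber A B p (ζ p)).symm,
      Finset.prod_univ_sum, Finset.sum_mul, h2]
    refine Finset.sum_congr rfl fun l hl => ?_
    rw [Fintype.mem_piFinset] at hl
    have h3 : (fun p => fk (l p)) = ζ := by
      funext p
      exact (Finset.mem_filter.1 (hl p)).2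
    rw [h3]
  rw [Finset.sum_congr rfl fun ζ _ => h1 ζ,
    sum_arr (fun (ξ : Pr z y → Option J) (μ : Pr z y → Mk k) =>
      (∏ p : Pr z y, TAe A B p (ξ p) (μ p)) * GT cls fun p => (ξ p, μ p))]

end Pool.Agent.L7h56.FT
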