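import Pool.Agent.L7h19.FT.Stm4

/-!
# Project FT: `S_CQ`
-/

set_option autoImplicit false

namespace Pool.Agent.L7h56.FT

open Finset Polynomial Pool.Agent.L7h19.IS Pool.Agent.L7h19.FT UniqueFactorizationMonoid

lemma rel_countP {α : Type} (r : α → α → Prop) (P : α → Prop) [DecidablePred P]
    (hP : ∀ a b, r a b → (P a ↔ P b)) {s t : Multiset α} (h : Multiset.Rel r s t) :
    s.countP P = t.countP P := by
  induction h with
  | zero => rfl
  | cons hab _ ih =>
    rw [Multiset.countP_cons, Multiset.countP_cons, ih]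
    congr 1
    exact if_congr (hP _ _ hab) rfl rfl

lemma sqr_iff (f κ : ℤ[X]) : Sqr f κ ↔ ∃ h : ℚ[X], mq f ∣ mq κ - h ^ 2 := by
  unfold Sqr
  constructor
  · rintro ⟨r, hr⟩
    obtain ⟨h, rfl⟩ := AdjoinRoot.mk_surjective r
    refine ⟨h, ?_⟩
    rw [← map_mul, AdjoinRoot.mk_eq_mk] at hr
    rw [pow_two]
    exact hr
  · rintro ⟨h, hh⟩
    refine ⟨AdjoinRoot.mk _ h, ?_⟩
    rw [← map_mul, AdjoinRoot.mk_eq_mk, ← pow_two]
    exact hh

lemma rel_SF {g : ℤ[X]} (hg : Squarefree (mq g)) :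
    Multiset.Rel Associated ((SF g).val.map mq) (normalizedFactors (mq g)) := by
  classical
  obtain ⟨β, hβ, hgeq⟩ := exists_fac hg
  have hg0 : mq g ≠ 0 := hg.ne_zero
  refine factors_unique (fun p hp => ?_) (fun p hp => irreducible_of_normalized_factor p hp) ?_
  · obtain ⟨f, hf, rfl⟩ := Multiset.mem_map.1 hp
    have h2 := SF_irr (g := g) (f := f) (Finset.mem_def.2 hf)
    exact mq_irr h2.1 h2.2.1
  · have h3 : ((SF g).val.map mq).prod = ∏ f ∈ SF g, mq f := rfl
    rw [h3]
    refine Associated.trans ?_ (prod_normalizedFactors hg0).symm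
    have h4 : mq g = C (β : ℚ) * ∏ f ∈ SF g, mq f := by
      conv_lhs => rw [hgeq]
      rw [mq, Polynomial.map_mul, Polynomial.map_C, Polynomial.map_prod]
      rfl
    rw [h4]
    have hu : IsUnit (C (β : ℚ) : ℚ[X]) := by
      rw [isUnit_C]
      exact (isUnit_iff_ne_zero.2 (by exact_mod_cast hβ))
    exact (associated_unit_mul_right _ _ hu)

/-- **S_CQ** -/
theorem s_CQ : S_CQ := by
  classical
  intro g κ hg
  have h1 := rel_countP Associated (fun p : ℚ[X] => ∃ h : ℚ[X], p ∣ mq κ - h ^ 2)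
    (fun a b hab => exists_congr fun h => hab.dvd_iff_dvd_left) (rel_SF hg)
  rw [Multiset.countP_map] at h1
  rw [Finset.card_def, Finset.filter_val]
  have h2 : Multiset.filter (fun f => Sqr f κ) (SF g).val =
      Multiset.filter (fun f => ∃ h : ℚ[X], mq f ∣ mq κ - h ^ 2) (SF g).val :=
    Multiset.filter_congr fun f _ => sqr_iff f κ
  rw [h2, h1, Multiset.countP_eq_card_filter]

end Pool.Agent.L7h56.FT
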